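import Pool.Agent.V1157.RO.Defs
import Pool.Agent.V1157.RE.Main
import Pool.Agent.V1157.SS.Main

/-!
# Endomorphisms of the cohomology in odd degrees up to errors of bounded rank
-/

open CategoryTheory AlgebraicGeometry

universe u v w

namespace Pool.Agent.V1157.RO

open Pool.Agent.H914 Pool.Agent.H914.VarClass Pool.Agent.H914.VarClass.Obj Pool.Agent.W492.BB
  Pool.Agent.W550.Corr Pool.Agent.TH133 Pool.Agent.Y148.BB Pool.Agent.V1157.BD
open Pool.Agent.V1157.RC (graph_mem cog_gr pow_eq_sum pow_mem')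
open Pool.Agent.V1157.RE (card_le_rank act_ext_deg cast_smul)

set_option linter.unusedSectionVars false

variable {k : Type u} [Field k] {𝒱 : VarClass k} {C : TheoryData.{u, v, 0} 𝒱 ℚ}
  [hC : IsChowProj C] {K : Type w} [Field K] {H : WeilTheoryData.{u, v, w} C K}
  [hH : IsWeilProj H] {S V X Y : 𝒱.Obj} {n m : ℕ} {𝒯 𝒜 : OpFamily H}

/-- Different projections of a complete intersection are orthogonal in odd degrees. -/
lemma push_pull_odd (hm : Odd m) {N : ℕ} {p : ℕ → (V ⟶ S)} {a : C.A S} {c κ : ℚ}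
    (h : Pw C n N p a c κ) {i l : ℕ} (hi : i < N) (hl : l < N) (hil : i ≠ l) {t : H.A S}
    (ht : H.Deg m t) : H.push (p l) (H.pull (p i) t) = 0 := by
  have h1 : H.push (p l) (H.pull (p i) t) =
      H.act (H.cl (C.comp (C.cograph (p i)) (C.graph (p l)))) t := by
    rw [actH_comp]
    have e1 : H.cl (C.cograph (p i)) = H.cograph (p i) := by
      rw [TheoryData.cograph, TheoryData.cograph, H.cl_push, map_one]
    have e2 : H.cl (C.graph (p l)) = H.graph (p l) := by
      rw [TheoryData.graph, TheoryData.graph, H.cl_push, map_one]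
    rw [e1, e2, H.act_cograph, H.act_graph]
  rw [h1, cog_gr, h.pq i hi l hl hil, act_cl_smul, pow_eq_sum]
  have h2 : H.act (H.cl (∑ j ∈ Finset.range (n + 1), (n.choose j : ℚ) •
      C.ext (a ^ j) (a ^ (n - j)))) t = ∑ j ∈ Finset.range (n + 1),
        H.act (H.cl ((n.choose j : ℚ) • C.ext (a ^ j) (a ^ (n - j)))) t := by
    rw [map_sum, act_sum]
  rw [h2, Finset.sum_eq_zero, mul_zero]
  intro j _
  obtain ⟨r, hr⟩ := hm
  rw [act_cl_smul, act_ext_deg h.dimS (pow_mem' h.ha _) (by omega) ht, mul_zero]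

/-- Pull-back in degree `m`. -/
noncomputable def plm (H : WeilTheoryData.{u, v, w} C K) [IsWeilProj H] (f : X ⟶ Y) (m : ℕ) :
    H.gr Y m →ₗ[K] H.gr X m :=
  ((H.pull f).toLinearMap.comp (H.gr Y m).subtype).codRestrict _ fun t => H.pull_mem f t.2

lemma push_deg_m (hX : X.dim = n) (hY : Y.dim = n) (f : X ⟶ Y) {t : H.A X}
    (ht : t ∈ H.gr X m) : H.push f t ∈ H.gr Y m := by
  have h1 := H.push_mem f ht
  have h2 : (m : ℤ) + 2 * ((Y.dim : ℤ) - X.dim) = m := by rw [hX, hY]; ring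
  rwa [h2] at h1

/-- Push-forward in degree `m`. -/
noncomputable def psm (H : WeilTheoryData.{u, v, w} C K) [IsWeilProj H] (hX : X.dim = n)
    (hY : Y.dim = n) (f : X ⟶ Y) (m : ℕ) : H.gr X m →ₗ[K] H.gr Y m :=
  ((H.push f).comp (H.gr X m).subtype).codRestrict _ fun t => push_deg_m hX hY f t.2

/-- The operator on `H^m(X)` given by a member of a family. -/
def toLin (h𝒯 : IsLinearFamily 𝒯 m) {φ : H.A X → H.A X} (hφ : 𝒯.Mem X φ) :
    H.gr X m →ₗ[K] H.gr X m where
  toFun t := ⟨φ t, h𝒯.deg X φ hφ t t.2⟩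
  map_add' s t := Subtype.ext (h𝒯.add X φ hφ s t s.2 t.2)
  map_smul' c t := Subtype.ext (h𝒯.smul X φ hφ c t t.2)

/-- The operators on `H^m(X)` which belong to the family. -/
def sub (h𝒜 : IsFamily 𝒜 m) (X : 𝒱.Obj) : Submodule K (H.gr X m →ₗ[K] H.gr X m) where
  carrier := {ψ | ∃ φ : H.A X → H.A X, 𝒜.Mem X φ ∧ ∀ t : H.gr X m, (ψ t : H.A X) = φ t}
  add_mem' := by
    rintro ψ ψ' ⟨φ, hφ, h⟩ ⟨φ', hφ', h'⟩
    refine ⟨_, h𝒜.isSpace.sum X φ φ' hφ hφ', fun t => ?_⟩
    rw [LinearMap.add_apply, Submodule.coe_add, h, h']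
  zero_mem' := ⟨_, h𝒜.isSpace.zero X, fun t => rfl⟩
  smul_mem' := by
    rintro c ψ ⟨φ, hφ, h⟩
    refine ⟨_, h𝒜.isSpace.scale X c φ hφ, fun t => ?_⟩
    rw [LinearMap.smul_apply, Submodule.coe_smul, h]

lemma mem_of_sub (h𝒜 : IsFamily 𝒜 m) {φ : H.A X → H.A X} {ψ : H.gr X m →ₗ[K] H.gr X m}
    (hψ : ψ ∈ sub h𝒜 X) (h : ∀ t : H.gr X m, (ψ t : H.A X) = φ t) : 𝒜.Mem X φ := by
  obtain ⟨φ', hφ', h'⟩ := hψ
  exact h𝒜.isSpace.congr X φ' φ hφ' fun t ht => by
    rw [← h ⟨t, ht⟩, ← h' ⟨t, ht⟩]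

lemma sum_mem (h𝒯 : IsFamily 𝒯 m) {ι : Type*} (s : Finset ι) (φ : ι → H.A X → H.A X)
    (h : ∀ i, 𝒯.Mem X (φ i)) : 𝒯.Mem X fun t => ∑ i ∈ s, φ i t := by
  classical
  induction s using Finset.induction_on with
  | empty =>
    refine h𝒯.isSpace.congr X _ _ (h𝒯.isSpace.zero X) fun t _ => ?_
    rw [Finset.sum_empty]
  | insert i s hi ih =>
    refine h𝒯.isSpace.congr X _ _ (h𝒯.isSpace.sum X _ _ (h i) ih) fun t _ => ?_
    rw [Finset.sum_insert hi]

/-- **Endomorphisms up to bounded rank.** -/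
theorem allIn_of_rank [CharZero K] (hm : Odd m) (h𝒯 : IsFamily 𝒯 m) (h𝒜 : IsFamily 𝒜 m)
    (hfin : ∀ X : 𝒱.Obj, Module.Finite K (H.A X))
    (hP : ∀ (S : 𝒱.Obj) (N : ℕ), S.dim = n → HasPower C n N S) {D : ℕ}
    (hD : AllInUpToRank 𝒯 m 𝒜 n D) : AllIn 𝒯 𝒜 n := by
  intro S φ hS hφ
  by_contra hne
  have := hfin S
  obtain ⟨V, p, a, b, κ, h⟩ := exists_pw hS (hP S (D * Module.finrank K (H.gr S m) + 1) hS)
  have := hfin V
  set N := D * Module.finrank K (H.gr S m) + 1 with hN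
  -- the operator on `V`
  let Φ : H.A V → H.A V := fun t => ∑ i : Fin N, H.up (p i) (φ (H.down (p i) t))
  have hΦ : 𝒯.Mem V Φ := sum_mem h𝒯 Finset.univ
    (fun (i : Fin N) t => H.up (p i) (φ (H.down (p i) t)))
    fun i => h𝒯.isStable.pull V S (p i) (p i) φ (by rw [h.dimV, h.dimS]) hφ
  obtain ⟨ψ, hψ, v, hv⟩ := hD V Φ h.dimV hΦ
  let E : H.gr V m →ₗ[K] H.gr V m :=
    toLin h𝒯.isLinearFamily hΦ - toLin h𝒜.isLinearFamily hψ
  have hE : Module.finrank K (LinearMap.range E) ≤ D := by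
    have h1 : (LinearMap.range E).map (H.gr V m).subtype ≤
        Submodule.span K (Set.range v) := by
      rintro _ ⟨_, ⟨t, rfl⟩, rfl⟩
      exact hv t t.2
    have h2 : Module.finrank K ((LinearMap.range E).map (H.gr V m).subtype) =
        Module.finrank K (LinearMap.range E) :=
      LinearEquiv.finrank_eq (Submodule.equivMapOfInjective _ (Submodule.injective_subtype _)
        _).symm
    calc Module.finrank K (LinearMap.range E) =
        Module.finrank K ((LinearMap.range E).map (H.gr V m).subtype) := h2.symm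
      _ ≤ Module.finrank K (Submodule.span K (Set.range v)) := Submodule.finrank_mono h1
      _ ≤ Fintype.card (Fin D) := finrank_range_le_card v
      _ = D := Fintype.card_fin D
  have hblock : ∀ (l j : Fin N) (t : H.gr S m),
      (((psm H h.dimV h.dimS (p l) m).comp (E.comp (plm H (p j) m)) t : H.gr S m) : H.A S) =
        H.push (p l) (Φ (H.pull (p j) t)) - H.push (p l) (ψ (H.pull (p j) t)) := by
    intro l j t
    change H.push (p l) (Φ (H.pull (p j) t) - ψ (H.pull (p j) t)) = _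
    rw [map_sub]
  have hψ' : ∀ l j : Fin N, ∀ χ : H.gr S m →ₗ[K] H.gr S m,
      (∀ t : H.gr S m, (χ t : H.A S) = - H.push (p l) (ψ (H.pull (p j) t))) →
        χ ∈ sub h𝒜 S := by
    intro l j χ hχ
    refine ⟨_, h𝒜.isSpace.scale S (-1) _ (h𝒜.isStable.push V S (p j) (p l) ψ
      (by rw [h.dimV, h.dimS]) hψ), fun t => ?_⟩
    rw [hχ, neg_one_smul]
  have hin : ∀ (j : Fin N) (i : Fin N) (t : H.A S), H.Deg m t → i ≠ j →
      φ (H.down (p i) (H.pull (p j) t)) = 0 := by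
    intro j i t ht hij
    have h1 : H.down (p i) (H.pull (p j) t) = 0 :=
      push_pull_odd hm h j.2 i.2 (fun e => hij (Fin.ext e).symm) ht
    rw [h1]
    have h2 := h𝒯.isLinearFamily.smul S φ hφ 0 0 (Submodule.zero_mem _)
    rwa [zero_smul, zero_smul] at h2
  have hself : ∀ (j : Fin N) (t : H.A S), H.Deg m t →
      φ (H.down (p j) (H.pull (p j) t)) = (κ : K) • φ t := by
    intro j t ht
    have h1 : H.down (p j) (H.pull (p j) t) = (κ : K) • t := by
      rw [← cast_smul]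
      exact h.push_pull j.2 t
    rw [h1, h𝒯.isLinearFamily.smul S φ hφ _ t ht]
  have hΦj : ∀ (j : Fin N) (t : H.A S), H.Deg m t →
      Φ (H.pull (p j) t) = (κ : K) • H.pull (p j) (φ t) := by
    intro j t ht
    change ∑ i : Fin N, H.pull (p i) (φ (H.down (p i) (H.pull (p j) t))) = _
    rw [Finset.sum_eq_single j]
    · rw [hself j t ht, map_smul]
    · intro i _ hij
      rw [hin j i t ht hij, map_zero]
    · intro h1
      exact absurd (Finset.mem_univ j) h1
  have key := card_le_rank (sub h𝒜 S) E (fun j : Fin N => plm H (p j) m)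
    (fun l => psm H h.dimV h.dimS (p l) m) (φ := toLin h𝒯.isLinearFamily hφ)
    (fun hmem => hne (mem_of_sub h𝒜 hmem fun t => rfl)) (κ := (κ : K) * κ)
    (mul_ne_zero (by exact_mod_cast h.hκ) (by exact_mod_cast h.hκ))
    (fun j => by
      refine hψ' j j _ fun t => ?_
      rw [LinearMap.sub_apply, Submodule.coe_sub, hblock, hΦj j t t.2, map_smul]
      have h1 : H.push (p j) (H.pull (p j) (φ t)) = (κ : K) • φ t := by
        rw [← cast_smul]
        exact h.push_pull j.2 _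
      rw [h1, smul_smul]
      change _ - _ - ((κ : K) * κ) • φ t = _
      abel)
    (fun l j hlj => by
      refine hψ' l j _ fun t => ?_
      rw [hblock, hΦj j t t.2, map_smul]
      have h1 : H.push (p l) (H.pull (p j) (φ t)) = 0 :=
        push_pull_odd hm h j.2 l.2 (fun e => hlj (Fin.ext e).symm)
          (h𝒯.isLinearFamily.deg S φ hφ t t.2)
      rw [h1, smul_zero, zero_sub])
  have h1 := Nat.mul_le_mul_right (Module.finrank K (H.gr S m)) hE
  omega

omit hC hH in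
theorem rank_of_allIn (h : AllIn 𝒯 𝒜 n) : AllInUpToRank 𝒯 m 𝒜 n 0 := by
  intro X φ hX hφ
  refine ⟨φ, h X φ hX hφ, Fin.elim0, fun t _ => ?_⟩
  rw [sub_self]
  exact Submodule.zero_mem _

end Pool.Agent.V1157.RO
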