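import Pool.Agent.V1157.BD.Defs

/-!
# Endomorphisms of the cohomology in odd degrees up to errors of bounded rank: definitions
-/

open CategoryTheory AlgebraicGeometry

universe u v w

namespace Pool.Agent.V1157.RO

open Pool.Agent.H914 Pool.Agent.H914.VarClass Pool.Agent.H914.VarClass.Obj Pool.Agent.W492.BB
  Pool.Agent.V1157.BD

variable {k : Type u} [Field k] {𝒱 : VarClass k} {C : TheoryData.{u, v, 0} 𝒱 ℚ} {K : Type w}
  [Field K]

/-- A family of operators on the cohomology of all varieties `X`, for example the endomorphisms of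
the Hodge structures `H^m(X)`, or those given by absolute Hodge correspondences. An operator on
`H^m(X)` is a function on `H(X)` of which only the values on `H^m(X)` matter. -/
structure OpFamily (H : WeilTheoryData.{u, v, w} C K) where
  /-- the operator `φ` on `H^m(X)` belongs to the family -/
  Mem : ∀ X : 𝒱.Obj, (H.A X → H.A X) → Prop

variable {H : WeilTheoryData.{u, v, w} C K} (𝒯 : OpFamily H) (m : ℕ)

/-- The operators of the family are `K`-linear endomorphisms of `H^m(X)`. -/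
structure IsLinearFamily : Prop where
  deg : ∀ (X : 𝒱.Obj) (φ : H.A X → H.A X), 𝒯.Mem X φ → ∀ t, H.Deg m t → H.Deg m (φ t)
  add : ∀ (X : 𝒱.Obj) (φ : H.A X → H.A X), 𝒯.Mem X φ → ∀ s t, H.Deg m s → H.Deg m t →
    φ (s + t) = φ s + φ t
  smul : ∀ (X : 𝒱.Obj) (φ : H.A X → H.A X), 𝒯.Mem X φ → ∀ (c : K) (t), H.Deg m t →
    φ (c • t) = c • φ t

/-- The operators of the family form a vector space, for each `X`. -/
structure IsSpace : Prop where
  congr : ∀ (X : 𝒱.Obj) (φ ψ : H.A X → H.A X), 𝒯.Mem X φ → (∀ t, H.Deg m t → φ t = ψ t) →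
    𝒯.Mem X ψ
  zero : ∀ X : 𝒱.Obj, 𝒯.Mem X fun _ => 0
  sum : ∀ (X : 𝒱.Obj) (φ ψ : H.A X → H.A X), 𝒯.Mem X φ → 𝒯.Mem X ψ →
    𝒯.Mem X fun t => φ t + ψ t
  scale : ∀ (X : 𝒱.Obj) (c : K) (φ : H.A X → H.A X), 𝒯.Mem X φ → 𝒯.Mem X fun t => c • φ t

/-- For morphisms `f, g : V ⟶ S`, `dim V = dim S`, the family is stable under
`φ ↦ g_* ∘ φ ∘ f^*` and `φ ↦ g^* ∘ φ ∘ f_*`. -/
structure IsStable : Prop where
  push : ∀ (V S : 𝒱.Obj) (f g : V ⟶ S) (φ : H.A V → H.A V), V.dim = S.dim → 𝒯.Mem V φ →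
    𝒯.Mem S fun t => H.down g (φ (H.up f t))
  pull : ∀ (V S : 𝒱.Obj) (f g : V ⟶ S) (φ : H.A S → H.A S), V.dim = S.dim → 𝒯.Mem S φ →
    𝒯.Mem V fun t => H.up g (φ (H.down f t))

/-- These properties together. -/
structure IsFamily : Prop where
  isLinearFamily : IsLinearFamily 𝒯 m
  isSpace : IsSpace 𝒯 m
  isStable : IsStable 𝒯

variable (𝒜 : OpFamily H) (n : ℕ)

/-- On the varieties of dimension `n` all operators of the family `𝒯` belong to the family `𝒜`. -/
def AllIn : Prop := ∀ (X : 𝒱.Obj) (φ : H.A X → H.A X), X.dim = n → 𝒯.Mem X φ → 𝒜.Mem X φ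

/-- On the varieties of dimension `n` all operators of the family `𝒯` belong to the family `𝒜` up to
operators of rank at most `D`: for each `φ` in `𝒯` there is `ψ` in `𝒜` such that the image of
`H^m(X)` under `φ - ψ` is contained in the span of `D` elements. -/
def AllInUpToRank (D : ℕ) : Prop :=
  ∀ (X : 𝒱.Obj) (φ : H.A X → H.A X), X.dim = n → 𝒯.Mem X φ → ∃ ψ : H.A X → H.A X,
    𝒜.Mem X ψ ∧ ∃ v : Fin D → H.A X, ∀ t, H.Deg m t → φ t - ψ t ∈ Submodule.span K (Set.range v)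

end Pool.Agent.V1157.RO
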